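import Mathlib

/-!
# Exponential IP sets of type II

In every finite colouring of `ℕ` some colour class is an exponential IP set of type II.

The proof uses multiplicatively piecewise syndetic sets (`Large`), the Hales-Jewett theorem,
Hindman's theorem and one nonprincipal ultrafilter.
-/

set_option autoImplicit false

open Filter

namespace Pool.Agent.V8H18.ExpIPTwo

/-! ### Multiplicatively piecewise syndetic sets -/

section Large

variable {M : Type*} [CommMonoid M]

/-- `L` is (multiplicatively) piecewise syndetic: finitely many quotient sets of `L` have a union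
which contains a translate of every finite set. -/
def Large (L : Set M) : Prop :=
  ∃ F : Finset M, ∀ H : Finset M, ∃ t : M, ∀ h ∈ H, ∃ f ∈ F, f * (t * h) ∈ L

lemma Large.mono {A B : Set M} (h : Large A) (hAB : A ⊆ B) : Large B := by
  obtain ⟨F, hF⟩ := h
  refine ⟨F, fun H => ?_⟩
  obtain ⟨t, ht⟩ := hF H
  refine ⟨t, fun h hh => ?_⟩
  obtain ⟨f, hf, hfA⟩ := ht h hh
  exact ⟨f, hf, hAB hfA⟩

lemma large_univ : Large (Set.univ : Set M) :=
  ⟨{1}, fun _ => ⟨1, fun _ _ => ⟨1, Finset.mem_singleton_self _, Set.mem_univ _⟩⟩⟩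

lemma not_large_empty : ¬ Large (∅ : Set M) := by
  rintro ⟨F, hF⟩
  obtain ⟨t, ht⟩ := hF {1}
  obtain ⟨f, _, hf⟩ := ht 1 (Finset.mem_singleton_self _)
  exact hf

lemma Large.union {L A B : Set M} (h : Large L) (hL : L ⊆ A ∪ B) : Large A ∨ Large B := by
  classical
  obtain ⟨F, hF⟩ := h
  by_cases hA : ∀ H : Finset M, ∃ t : M, ∀ h ∈ H, ∃ f ∈ F, f * (t * h) ∈ A
  · exact Or.inl ⟨F, hA⟩
  · right
    push Not at hA
    obtain ⟨H1, hH1⟩ := hA
    refine ⟨Finset.image₂ (fun f h => f * h) F H1, fun H => ?_⟩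
    obtain ⟨t, ht⟩ := hF (Finset.image₂ (fun a b => a * b) H1 H)
    refine ⟨t, fun h hh => ?_⟩
    obtain ⟨h1, hh1, hn⟩ := hH1 (t * h)
    obtain ⟨f, hf, hfL⟩ := ht (h1 * h) (Finset.mem_image₂_of_mem hh1 hh)
    refine ⟨f * h1, Finset.mem_image₂_of_mem hf hh1, ?_⟩
    have e1 : f * (t * (h1 * h)) = f * h1 * (t * h) := by
      rw [mul_assoc f h1, mul_left_comm t h1 h]
    have e2 : f * (t * (h1 * h)) = f * (t * h * h1) := by
      rw [mul_comm h1 h, mul_assoc]
    have h3 : f * (t * (h1 * h)) ∉ A := by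
      rw [e2]
      exact hn f hf
    rw [← e1]
    exact (hL hfL).resolve_left h3

lemma Large.biUnion {ι : Type*} (s : Finset ι) (A : ι → Set M) :
    ∀ L : Set M, Large L → L ⊆ (⋃ i ∈ s, A i) → ∃ i ∈ s, Large (A i) := by
  classical
  induction s using Finset.induction_on with
  | empty =>
    intro L hL hLs
    exfalso
    have : L ⊆ ∅ := by simpa using hLs
    exact not_large_empty (hL.mono this)
  | insert a s ha ih =>
    intro L hL hLs
    have h1 : L ⊆ A a ∪ ⋃ i ∈ s, A i := by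
      rw [Finset.set_biUnion_insert] at hLs
      exact hLs
    rcases hL.union h1 with h2 | h2
    · exact ⟨a, Finset.mem_insert_self _ _, h2⟩
    · obtain ⟨i, hi, hi2⟩ := ih _ h2 subset_rfl
      exact ⟨i, Finset.mem_insert_of_mem hi, hi2⟩

lemma Large.exists_color {κ : Type*} [Finite κ] {L : Set M} (hL : Large L) (g : M → κ) :
    ∃ i, Large {a ∈ L | g a = i} := by
  classical
  have := Fintype.ofFinite κ
  obtain ⟨i, _, hi⟩ := Large.biUnion Finset.univ (fun i => {a ∈ L | g a = i}) L hL (by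
    intro a ha
    simp only [Set.mem_iUnion]
    exact ⟨g a, Finset.mem_univ _, ha, rfl⟩)
  exact ⟨i, hi⟩

end Large

section HJ

variable {M : Type*} [CommMonoid M]

/-- the values of the product along a combinatorial line -/
lemma line_prod {β ι : Type*} [Fintype ι] (l : Combinatorics.Line (Option β) ι)
    (Z : Option β → M) (hZ : Z none = 1) (d : ι → ℕ) (x : Option β)
    (S : Finset ι) (hS : ∀ i, i ∈ S ↔ l.idxFun i = none) :
    ∏ i, Z (l x i) ^ d i = (∏ i, Z (l none i) ^ d i) * Z x ^ (∑ i ∈ S, d i) := by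
  classical
  have h1 : ∀ i, Z (l x i) ^ d i = Z (l none i) ^ d i * (if i ∈ S then Z x ^ d i else 1) := by
    intro i
    by_cases hi : i ∈ S
    · have hi2 := (hS i).mp hi
      rw [if_pos hi, Combinatorics.Line.apply_none l x i hi2,
        Combinatorics.Line.apply_none l none i hi2, hZ, one_pow, one_mul]
    · rw [if_neg hi, mul_one]
      have hi2 : l.idxFun i ≠ none := fun h => hi ((hS i).mpr h)
      obtain ⟨a, ha⟩ := Option.ne_none_iff_exists'.mp hi2
      rw [Combinatorics.Line.apply_some ha, Combinatorics.Line.apply_some ha]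
  rw [Finset.prod_congr rfl (fun i _ => h1 i), Finset.prod_mul_distrib]
  congr 1
  rw [Finset.prod_ite_mem, Finset.univ_inter, Finset.prod_pow_eq_pow_sum]

/-- The main combinatorial lemma, from Hales-Jewett. -/
lemma Large.hj {β : Type} [Finite β] {L : Set M} (hL : Large L) :
    ∃ (ι : Type) (_ : Fintype ι), ∀ (z : β → M) (d : ι → ℕ), ∃ S : Finset ι, S.Nonempty ∧
      Large {a ∈ L | ∀ b, a * z b ^ (∑ i ∈ S, d i) ∈ L} := by
  classical
  have := Fintype.ofFinite β
  obtain ⟨F, hF⟩ := hL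
  obtain ⟨ι, hι, hHJ⟩ := Combinatorics.Line.exists_mono_in_high_dimension (Option β) F
  refine ⟨ι, hι, fun z d => ?_⟩
  set Z : Option β → M := fun o => o.elim 1 z with hZdef
  have hZ : Z none = 1 := rfl
  set π : (ι → Option β) → M := fun u => ∏ i, Z (u i) ^ d i with hπ
  set LS : Finset ι → Set M := fun S => {a ∈ L | ∀ b, a * z b ^ (∑ i ∈ S, d i) ∈ L} with hLS
  have hlarge : Large {a : M | ∃ S : Finset ι, S.Nonempty ∧ a ∈ LS S} := by
    refine ⟨Finset.image₂ (fun f u => f * π u) F Finset.univ, fun H => ?_⟩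
    obtain ⟨t, ht⟩ := hF (Finset.image₂ (fun u h => π u * h) Finset.univ H)
    refine ⟨t, fun h hh => ?_⟩
    have h1 : ∀ u : ι → Option β, ∃ f ∈ F, f * (t * (π u * h)) ∈ L := fun u =>
      ht _ (Finset.mem_image₂_of_mem (Finset.mem_univ u) hh)
    choose f hf hfL using h1
    obtain ⟨l, c, hc⟩ := hHJ (fun u => (⟨f u, hf u⟩ : F))
    refine ⟨c.1 * π (l none), Finset.mem_image₂_of_mem c.2 (Finset.mem_univ _), ?_⟩
    set S : Finset ι := Finset.univ.filter (fun i => l.idxFun i = none) with hS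
    have hS' : ∀ i, i ∈ S ↔ l.idxFun i = none := by
      intro i
      rw [hS, Finset.mem_filter]
      simp
    have hfl : ∀ x, f (l x) = c.1 := fun x => congrArg Subtype.val (hc x)
    have hmem : ∀ x, c.1 * π (l none) * (t * h) * Z x ^ (∑ i ∈ S, d i) ∈ L := by
      intro x
      have h2 := hfL (l x)
      rw [hfl x] at h2
      have h3 : π (l x) = π (l none) * Z x ^ (∑ i ∈ S, d i) := line_prod l Z hZ d x S hS'
      rw [h3] at h2
      convert h2 using 1
      simp only [mul_assoc, mul_left_comm, mul_comm]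
    refine ⟨S, ?_, ?_, ?_⟩
    · obtain ⟨i, hi⟩ := l.proper
      exact ⟨i, (hS' i).mpr hi⟩
    · have := hmem none
      rw [hZ, one_pow, mul_one] at this
      exact this
    · intro b
      exact hmem (some b)
  obtain ⟨S, hS, hS2⟩ := Large.biUnion (Finset.univ.filter (fun S : Finset ι => S.Nonempty)) LS _
    hlarge (by
      rintro a ⟨S, hS, ha⟩
      simp only [Set.mem_iUnion]
      exact ⟨S, by simp [hS], ha⟩)
  exact ⟨S, (Finset.mem_filter.mp hS).2, hS2⟩

end HJ

/-! ### Large sets contain finite sum systems -/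

/-- finite sums of a stream of positive integers -/
lemma FS_sum (a : Stream' ℕ+) (s : Finset ℕ) (hs : s.Nonempty) :
    ∃ y ∈ Hindman.FS (a.drop (s.min' hs)), (y : ℕ) = ∑ i ∈ s, (a.get i : ℕ) := by
  classical
  induction s using Finset.eraseInduction with | H s ih => _
  have e0 := Finset.add_sum_erase s (fun i => (a.get i : ℕ)) (s.min'_mem hs)
  rcases (s.erase (s.min' hs)).eq_empty_or_nonempty with h | h
  · refine ⟨a.get (s.min' hs), ?_, ?_⟩
    · have := Hindman.FS.head (a.drop (s.min' hs))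
      rwa [Stream'.head_drop] at this
    · rw [← e0, h, Finset.sum_empty, add_zero]
  · obtain ⟨y, hy, hy2⟩ := ih _ (s.min'_mem hs) h
    refine ⟨a.get (s.min' hs) + y, ?_, ?_⟩
    · have h1 : y ∈ Hindman.FS ((a.drop (s.min' hs)).tail) := by
        rw [Stream'.tail_eq_drop, Stream'.drop_drop]
        have : s.min' hs + 1 ≤ (s.erase (s.min' hs)).min' h :=
          Nat.succ_le_of_lt (Finset.min'_lt_of_mem_erase_min' _ _ <| Finset.min'_mem _ _)
        obtain ⟨d, hd⟩ := Nat.exists_eq_add_of_le this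
        rw [hd, ← Stream'.drop_drop] at hy
        exact Hindman.FS_iter_tail_sub_FS _ _ hy
      have := Hindman.FS.cons (a.drop (s.min' hs)) y h1
      rwa [Stream'.head_drop] at this
    · rw [← e0, PNat.add_coe, hy2]

lemma Large.exists_FS {L : Set ℕ+} (hL : Large L) (ι : Type) [Fintype ι] :
    ∃ d : ι → ℕ, ∀ S : Finset ι, S.Nonempty → ∃ k : ℕ+, (k : ℕ) = ∑ i ∈ S, d i ∧ k ∈ L := by
  classical
  obtain ⟨F, hF⟩ := hL
  set U : Ultrafilter ℕ := hyperfilter ℕ with hU
  choose t ht using fun n : ℕ => hF (Finset.Icc 1 (n.succPNat))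
  set A : ℕ+ → Set ℕ+ := fun f => {h | ∀ᶠ n in (U : Filter ℕ), f * (t n * h) ∈ L} with hA
  have hcov : (⊤ : Set ℕ+) ⊆ ⋃₀ (A '' (F : Set ℕ+)) := by
    intro h _
    have h1 : ∀ᶠ n in (U : Filter ℕ), ∃ f ∈ (F : Set ℕ+), f * (t n * h) ∈ L := by
      have h2 : ∀ᶠ n in (U : Filter ℕ), (h : ℕ) ≤ n :=
        Nat.hyperfilter_le_atTop (eventually_ge_atTop (h : ℕ))
      filter_upwards [h2] with n hn
      apply ht n h
      rw [Finset.mem_Icc]
      refine ⟨one_le, ?_⟩
      rw [← PNat.coe_le_coe, Nat.succPNat_coe]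
      exact hn.trans (Nat.le_succ n)
    rw [Ultrafilter.eventually_exists_mem_iff F.finite_toSet] at h1
    obtain ⟨f, hf, hf2⟩ := h1
    exact Set.mem_sUnion.mpr ⟨A f, ⟨f, hf, rfl⟩, hf2⟩
  obtain ⟨c, ⟨f, hf, rfl⟩, a, ha⟩ := Hindman.exists_FS_of_finite_cover (A '' (F : Set ℕ+))
    (F.finite_toSet.image A) hcov
  set e : ι → ℕ := fun i => (Fintype.equivFin ι i : ℕ) with he
  have he_inj : Function.Injective e := by
    intro i j hij
    exact (Fintype.equivFin ι).injective (Fin.ext hij)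
  have h1 : ∀ S : Finset ι, S.Nonempty → ∃ y : ℕ+, y ∈ A f ∧
      (y : ℕ) = ∑ i ∈ S, (a.get (e i) : ℕ) := by
    intro S hS
    obtain ⟨y, hy, hy2⟩ := FS_sum a (S.image e) (hS.image e)
    refine ⟨y, ha (Hindman.FS_iter_tail_sub_FS _ _ hy), ?_⟩
    rw [hy2, Finset.sum_image (fun i _ j _ hij => he_inj hij)]
  choose! y hyA hy using h1
  have h2 : ∀ᶠ n in (U : Filter ℕ), ∀ S : Finset ι, S.Nonempty → f * (t n * y S) ∈ L := by
    rw [Filter.eventually_all]
    intro S
    by_cases hS : S.Nonempty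
    · filter_upwards [hyA S hS] with n hn _ using hn
    · exact Filter.Eventually.of_forall (fun n h => absurd h hS)
  obtain ⟨n, hn⟩ := h2.exists
  refine ⟨fun i => (f : ℕ) * ((t n : ℕ) * (a.get (e i) : ℕ)), fun S hS => ?_⟩
  refine ⟨f * (t n * y S), ?_, hn S hS⟩
  rw [PNat.mul_coe, PNat.mul_coe, hy S hS, Finset.mul_sum, Finset.mul_sum]

/-! ### The construction -/

section Construction

variable {κ : Type*} [Finite κ]

/-- the limit colour of `m ^ k`, as `m` tends to infinity along an ultrafilter -/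
lemma exists_limit_color (c : ℕ → κ) (k : ℕ) :
    ∃ i : κ, ∀ᶠ m in (hyperfilter ℕ : Ultrafilter ℕ), c (m ^ k) = i := by
  have h : ∀ᶠ m in (hyperfilter ℕ : Ultrafilter ℕ), ∃ i : κ, c (m ^ k) = i :=
    Filter.Eventually.of_forall (fun m => ⟨_, rfl⟩)
  exact Ultrafilter.eventually_exists_iff.mp h

omit [Finite κ] in
/-- the step of the construction -/
lemma step (c : ℕ → κ) (ψ : ℕ → κ)
    (hψ : ∀ k, ∀ᶠ m in (hyperfilter ℕ : Ultrafilter ℕ), c (m ^ k) = ψ k) (C : κ)
    (Y : Finset ℕ) (L : Set ℕ+) (hL : Large L)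
    (hY : ∀ k ∈ L, ∀ y ∈ insert 1 Y, ψ ((k : ℕ) * y) = C) (B : ℕ) :
    ∃ x : ℕ, B < x ∧ c x = C ∧ (∀ y ∈ Y, c (x ^ y) = C) ∧ ∃ L' : Set ℕ+, Large L' ∧
      ∀ k ∈ L', ∀ y ∈ insert 1 (insert x (Y ∪ Y.image (fun y => x ^ y))),
        ψ ((k : ℕ) * y) = C := by
  classical
  set U : Ultrafilter ℕ := hyperfilter ℕ with hU
  obtain ⟨ι, hι, hHJ⟩ := hL.hj (β := ↥(insert 1 Y : Finset ℕ))
  obtain ⟨d, hd⟩ := hL.exists_FS ι
  have h1 : ∀ m : ℕ, ∃ S : Finset ι, S.Nonempty ∧ Large {a ∈ L |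
      ∀ b : ↥(insert 1 Y : Finset ℕ), a * (m.succPNat ^ (b : ℕ)) ^ (∑ i ∈ S, d i) ∈ L} :=
    fun m => hHJ (fun b => m.succPNat ^ (b : ℕ)) d
  have h2 : ∀ᶠ m in (U : Filter ℕ), ∃ S : Finset ι, S.Nonempty ∧ Large {a ∈ L |
      ∀ b : ↥(insert 1 Y : Finset ℕ),
        a * ((m - 1).succPNat ^ (b : ℕ)) ^ (∑ i ∈ S, d i) ∈ L} :=
    Filter.Eventually.of_forall (fun m => h1 (m - 1))
  obtain ⟨S, hS⟩ := Ultrafilter.eventually_exists_iff.mp h2
  obtain ⟨_, hSne, _⟩ := hS.exists
  obtain ⟨k, hk, hkL⟩ := hd S hSne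
  have h3 : ∀ᶠ m in (U : Filter ℕ), ∀ y ∈ insert 1 Y, c (m ^ ((k : ℕ) * y)) = C := by
    rw [Filter.eventually_all_finset]
    intro y hy
    filter_upwards [hψ ((k : ℕ) * y)] with m hm
    rw [hm]
    exact hY k hkL y hy
  have h4 : ∀ᶠ m in (U : Filter ℕ), B + 1 ≤ m :=
    Nat.hyperfilter_le_atTop (eventually_ge_atTop (B + 1))
  obtain ⟨m, ⟨_, hm1⟩, hm2, hm3⟩ := (hS.and (h3.and h4)).exists
  have hmpos : ((m - 1).succPNat : ℕ) = m := by
    rw [Nat.succPNat_coe]
    omega
  refine ⟨m ^ (k : ℕ), ?_, ?_, ?_, _, hm1, ?_⟩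
  · calc B < m := hm3
      _ = m ^ 1 := (pow_one m).symm
      _ ≤ m ^ (k : ℕ) := Nat.pow_le_pow_right (by omega) k.2
  · have := hm2 1 (Finset.mem_insert_self _ _)
    rwa [mul_one] at this
  · intro y hy
    rw [← pow_mul]
    exact hm2 y (Finset.mem_insert_of_mem hy)
  · rintro a ⟨haL, ha⟩ y hy
    rw [Finset.mem_insert, Finset.mem_insert, Finset.mem_union, Finset.mem_image] at hy
    have key : ∀ b ∈ insert 1 Y, ψ ((a : ℕ) * m ^ ((k : ℕ) * b)) = C := by
      intro b hb
      have h5 := hY _ (ha ⟨b, hb⟩) 1 (Finset.mem_insert_self _ _)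
      rw [← hk, mul_one, PNat.mul_coe, PNat.pow_coe, PNat.pow_coe, hmpos, ← pow_mul,
        mul_comm b] at h5
      exact h5
    rcases hy with rfl | rfl | hy | ⟨b, hb, rfl⟩
    · exact hY a haL 1 (Finset.mem_insert_self _ _)
    · have := key 1 (Finset.mem_insert_self _ _)
      rwa [mul_one] at this
    · exact hY a haL y (Finset.mem_insert_of_mem hy)
    · rw [← pow_mul]
      exact key b (Finset.mem_insert_of_mem hb)

/-- `FE^II_n(X)` for the infinite set `X = {x 0 < x 1 < x 2 < ...}`. -/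
def FEII (x : ℕ → ℕ) : ℕ → Set ℕ
  | 0 => {x 0}
  | n + 1 => {z | ∃ y ∈ FEII x n, z = x (n + 1) ^ y} ∪ FEII x n ∪ {x (n + 1)}

/-- `C` is an exponential IP set of type II: it contains `FE^II(X)` for some infinite set `X` of
natural numbers (given by its increasing enumeration). -/
def IsExpIPII (C : Set ℕ) : Prop :=
  ∃ x : ℕ → ℕ, StrictMono x ∧ ∀ n, FEII x n ⊆ C

/-- The state of the construction: the last chosen element, the finite set of all towers built so
far, and a large set of exponents. -/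
structure State (c : ℕ → κ) (ψ : ℕ → κ) (C : κ) where
  last : ℕ
  Y : Finset ℕ
  L : Set ℕ+
  large : Large L
  good : ∀ k ∈ L, ∀ y ∈ insert 1 Y, ψ ((k : ℕ) * y) = C
  col : ∀ y ∈ Y, c y = C

omit [Finite κ] in
lemma State.next {c : ℕ → κ} {ψ : ℕ → κ}
    (hψ : ∀ k, ∀ᶠ m in (hyperfilter ℕ : Ultrafilter ℕ), c (m ^ k) = ψ k) {C : κ}
    (s : State c ψ C) :
    ∃ s' : State c ψ C, s.last < s'.last ∧
      s'.Y = insert s'.last (s.Y ∪ s.Y.image (fun y => s'.last ^ y)) := by
  classical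
  obtain ⟨x, hx, hxC, hxY, L', hL', hL'2⟩ := step c ψ hψ C s.Y s.L s.large s.good s.last
  refine ⟨⟨x, insert x (s.Y ∪ s.Y.image (fun y => x ^ y)), L', hL', hL'2, ?_⟩, hx, rfl⟩
  intro y hy
  rw [Finset.mem_insert, Finset.mem_union, Finset.mem_image] at hy
  rcases hy with rfl | hy | ⟨b, hb, rfl⟩
  · exact hxC
  · exact s.col y hy
  · exact hxY b hb

/-- In every finite colouring of the natural numbers some colour class is an exponential IP set of
type II. -/
theorem exists_isExpIPII (c : ℕ → κ) : ∃ i : κ, IsExpIPII {n | c n = i} := by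
  classical
  choose ψ hψ using exists_limit_color c
  obtain ⟨C, hC⟩ := (large_univ (M := ℕ+)).exists_color (fun k : ℕ+ => ψ (k : ℕ))
  obtain ⟨s0, hs0⟩ : ∃ s : State c ψ C, s.Y = ∅ := ⟨⟨0, ∅, _, hC, by
    rintro k ⟨_, hk⟩ y hy
    have hy1 : y = 1 := by simpa using hy
    rw [hy1, mul_one]
    exact hk, by simp⟩, rfl⟩
  choose f hf1 hf2 using fun s : State c ψ C => s.next hψ
  set x : ℕ → ℕ := fun n => (f^[n + 1] s0).last with hx
  have key : ∀ n, FEII x n = ((f^[n + 1] s0).Y : Set ℕ) := by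
    intro n
    induction n with
    | zero =>
      show ({x 0} : Set ℕ) = _
      have h1 : (f^[0 + 1] s0).Y = {x 0} := by
        show (f s0).Y = {(f s0).last}
        rw [hf2 s0, hs0]
        simp
      rw [h1, Finset.coe_singleton]
    | succ n ih =>
      show {z | ∃ y ∈ FEII x n, z = x (n + 1) ^ y} ∪ FEII x n ∪ {x (n + 1)} = _
      have h1 : (f^[n + 1 + 1] s0).Y = insert (x (n + 1))
          ((f^[n + 1] s0).Y ∪ (f^[n + 1] s0).Y.image (fun y => x (n + 1) ^ y)) := by
        show (f^[n + 1 + 1] s0).Y = insert (f^[n + 1 + 1] s0).last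
          ((f^[n + 1] s0).Y ∪ (f^[n + 1] s0).Y.image (fun y => (f^[n + 1 + 1] s0).last ^ y))
        rw [Function.iterate_succ_apply' f (n + 1)]
        exact hf2 _
      rw [h1, ih]
      ext z
      simp only [Set.mem_union, Set.mem_setOf_eq, Finset.mem_coe, Set.mem_singleton_iff,
        Finset.mem_insert, Finset.mem_union, Finset.mem_image]
      constructor
      · rintro ((⟨y, hy, rfl⟩ | hz) | rfl)
        · exact Or.inr (Or.inr ⟨y, hy, rfl⟩)
        · exact Or.inr (Or.inl hz)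
        · exact Or.inl rfl
      · rintro (rfl | hz | ⟨y, hy, rfl⟩)
        · exact Or.inr rfl
        · exact Or.inl (Or.inr hz)
        · exact Or.inl (Or.inl ⟨y, hy, rfl⟩)
  refine ⟨C, x, ?_, ?_⟩
  · apply strictMono_nat_of_lt_succ
    intro n
    show (f^[n + 1] s0).last < (f^[n + 1 + 1] s0).last
    rw [Function.iterate_succ_apply' f (n + 1)]
    exact hf1 _
  · intro n y hy
    rw [key n] at hy
    exact (f^[n + 1] s0).col y hy

end Construction

end Pool.Agent.V8H18.ExpIPTwo
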