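import Mathlib

/-!
# Exponential IP sets of type I

A 2-colouring of `ℕ` in which no colour class is an exponential IP set of type I.
-/

set_option autoImplicit false

open Filter

namespace Pool.Agent.V8H18.ExpIPOne

/-! ### The towers -/

/-- two interleaved towers: `5, 7, 2^5+1, 2^7+3, 2^33+1, 2^131+3, ...` -/
def P : ℕ → ℕ
  | 0 => 5
  | 1 => 7
  | n + 2 => 2 ^ P n + (if n % 2 = 0 then 1 else 3)

lemma P_zero : P 0 = 5 := rfl
lemma P_one : P 1 = 7 := rfl
lemma P_add_two (n : ℕ) : P (n + 2) = 2 ^ P n + (if n % 2 = 0 then 1 else 3) := rfl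

lemma P_add_two_gt (n : ℕ) : 2 ^ P n < P (n + 2) := by
  rw [P_add_two]; split_ifs <;> omega

lemma P_add_two_le (n : ℕ) : P (n + 2) ≤ 2 ^ P n + 3 := by
  rw [P_add_two]; split_ifs <;> omega

lemma P_ge_five : ∀ n, 5 ≤ P n
  | 0 => le_rfl
  | 1 => by rw [P_one]; norm_num
  | n + 2 => by
    have h1 := P_ge_five n
    have h2 := P_add_two_gt n
    have h3 : 2 ^ 5 ≤ 2 ^ P n := Nat.pow_le_pow_right (by norm_num) h1
    omega

lemma P_mod_four : ∀ n, P n % 4 = if n % 2 = 0 then 1 else 3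
  | 0 => rfl
  | 1 => rfl
  | n + 2 => by
    have h1 := P_ge_five n
    have h2 : 2 ^ P n % 4 = 0 := by
      obtain ⟨d, hd⟩ := Nat.exists_eq_add_of_le h1
      rw [hd, pow_add]
      omega
    rw [P_add_two, Nat.add_mod_right]
    split_ifs <;> omega

lemma P_succ_ge : ∀ n, P n + 2 ≤ P (n + 1)
  | 0 => by rw [P_zero, P_one]
  | 1 => by rw [P_one]; decide
  | n + 2 => by
    have h1 := P_succ_ge n
    have h2 := P_add_two_le n
    have h3 := P_add_two_gt (n + 1)
    have h4 : 2 ^ (P n + 2) ≤ 2 ^ P (n + 1) := Nat.pow_le_pow_right (by norm_num) h1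
    have h5 : 2 ^ 5 ≤ 2 ^ P n := Nat.pow_le_pow_right (by norm_num) (P_ge_five n)
    rw [pow_add] at h4
    show P (n + 2) + 2 ≤ P (n + 1 + 2)
    omega

lemma P_strictMono : StrictMono P := strictMono_nat_of_lt_succ (fun n => by
  have := P_succ_ge n
  omega)

/-- `P (n + 2) ≥ 2 P (n + 1)` -/
lemma P_double : ∀ n, 2 * P (n + 1) ≤ P (n + 2)
  | 0 => by decide
  | n + 1 => by
    have h1 := P_succ_ge n
    have h2 := P_add_two_le n
    have h3 := P_add_two_gt (n + 1)
    have h4 : 2 ^ (P n + 2) ≤ 2 ^ P (n + 1) := Nat.pow_le_pow_right (by norm_num) h1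
    have h5 : 2 ^ 5 ≤ 2 ^ P n := Nat.pow_le_pow_right (by norm_num) (P_ge_five n)
    rw [pow_add] at h4
    show 2 * P (n + 2) ≤ P (n + 1 + 2)
    omega

/-- the number of `n` with `P n ≤ z` -/
lemma exists_lt_P (z : ℝ) : ∃ n, z < P n := by
  obtain ⟨n, hn⟩ := exists_nat_gt z
  exact ⟨n, hn.trans_le (by exact_mod_cast P_strictMono.le_apply)⟩

open Classical in
/-- the number of `n` with `P n ≤ z` -/
noncomputable def nu (z : ℝ) : ℕ := Nat.find (exists_lt_P z)

lemma lt_P_nu (z : ℝ) : z < P (nu z) := by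
  classical
  exact Nat.find_spec (exists_lt_P z)

lemma P_le_of_lt_nu {z : ℝ} {m : ℕ} (h : m < nu z) : (P m : ℝ) ≤ z := by
  classical
  exact not_lt.mp (Nat.find_min (exists_lt_P z) h)

lemma nu_eq {z : ℝ} {n : ℕ} (h1 : z < P n) (h2 : ∀ m, m < n → (P m : ℝ) ≤ z) : nu z = n := by
  rcases lt_trichotomy (nu z) n with h | h | h
  · exact absurd (h2 _ h) (not_le.mpr (lt_P_nu z))
  · exact h
  · exact absurd (P_le_of_lt_nu h) (not_le.mpr h1)

lemma nu_eq_succ {z : ℝ} {n : ℕ} (h1 : z < P (n + 1)) (h2 : (P n : ℝ) ≤ z) : nu z = n + 1 := by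
  refine nu_eq h1 (fun m hm => le_trans ?_ h2)
  exact_mod_cast P_strictMono.monotone (Nat.lt_succ_iff.mp hm)

/-! ### The colouring -/

/-- the four patterns `0, b, 1, 1 - b` -/
def pat (n : ℕ) (b : Bool) : Bool :=
  if n % 4 = 0 then false else if n % 4 = 1 then b else if n % 4 = 2 then true else !b

lemma pat_congr {n n' : ℕ} (h : n % 4 = n' % 4) (b : Bool) : pat n b = pat n' b := by
  unfold pat; rw [h]

lemma pat_add_two (n : ℕ) (b : Bool) : pat (n + 2) b = !pat n b := by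
  have h : n % 4 = 0 ∨ n % 4 = 1 ∨ n % 4 = 2 ∨ n % 4 = 3 := by omega
  unfold pat
  rcases h with h | h | h | h
  · have h2 : (n + 2) % 4 = 2 := by omega
    rw [h, h2]; rfl
  · have h2 : (n + 2) % 4 = 3 := by omega
    rw [h, h2]; rfl
  · have h2 : (n + 2) % 4 = 0 := by omega
    rw [h, h2]; rfl
  · have h2 : (n + 2) % 4 = 1 := by omega
    rw [h, h2]; cases b <;> rfl

/-- consecutive patterns agree on one of the cells -/
lemma pat_succ {n : ℕ} {b : Bool} (hb : b = decide (n % 2 = 1)) : pat (n + 1) b = pat n b := by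
  have h : n % 4 = 0 ∨ n % 4 = 1 ∨ n % 4 = 2 ∨ n % 4 = 3 := by omega
  subst hb
  unfold pat
  rcases h with h | h | h | h
  · have h2 : (n + 1) % 4 = 1 := by omega
    have h3 : n % 2 = 0 := by omega
    rw [h, h2, h3]; rfl
  · have h2 : (n + 1) % 4 = 2 := by omega
    have h3 : n % 2 = 1 := by omega
    rw [h, h2, h3]; rfl
  · have h2 : (n + 1) % 4 = 3 := by omega
    have h3 : n % 2 = 0 := by omega
    rw [h, h2, h3]; rfl
  · have h2 : (n + 1) % 4 = 0 := by omega
    have h3 : n % 2 = 1 := by omega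
    rw [h, h2, h3]; rfl

/-- the cell of `z`: the parity of `⌊z / 2⌋` -/
noncomputable def th (z : ℝ) : Bool := decide (⌊z / 2⌋ % 2 = 1)

/-- the colouring, on the scale of twice iterated logarithms -/
noncomputable def G (z : ℝ) : Bool := pat (nu z) (th z)

/-- the colouring -/
noncomputable def col (n : ℕ) : Bool := G (Real.logb 2 (Real.logb 2 n))

lemma th_add {z δ : ℝ} {k : ℤ} (h1 : 0 ≤ z - 2 * ⌊z / 2⌋ + δ) (h2 : z - 2 * ⌊z / 2⌋ + δ < 2) :
    th (z + (4 * k + δ)) = th z := by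
  have h3 : ⌊(z + (4 * k + δ)) / 2⌋ = ⌊z / 2⌋ + 2 * k := by
    rw [Int.floor_eq_iff]
    push_cast
    constructor <;> linarith
  unfold th
  rw [h3]
  have : (⌊z / 2⌋ + 2 * k) % 2 = ⌊z / 2⌋ % 2 := by omega
  rw [this]

/-- the cell around `P n` -/
lemma th_near {z : ℝ} {n : ℕ} (h1 : (P n : ℝ) - 1 ≤ z) (h2 : z < P n + 1) :
    th z = decide (n % 2 = 1) := by
  have h3 := P_mod_four n
  obtain ⟨q, hq⟩ : ∃ q : ℕ, P n = 2 * q + 1 := ⟨P n / 2, by split_ifs at h3 <;> omega⟩
  unfold th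
  have h4 : ⌊z / 2⌋ = (q : ℤ) := by
    rw [Int.floor_eq_iff]
    have h6 : (P n : ℝ) = 2 * (q : ℝ) + 1 := by exact_mod_cast hq
    rw [Int.cast_natCast]
    constructor <;> linarith
  rw [h4]
  have h7 : ((q : ℤ) % 2 = 1) ↔ (n % 2 = 1) := by
    split_ifs at h3 <;> omega
  simp only [h7]

/-- the colour of `log w` -/
lemma G_log {w : ℝ} {m : ℕ} (h1 : (P (m + 2) : ℝ) ≤ w) (h2 : w < P (m + 3)) :
    G (Real.logb 2 w) = !(pat (nu w) (th (Real.logb 2 w))) := by
  have hnu : nu w = m + 3 := nu_eq_succ h2 h1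
  have hpos : (0 : ℝ) < w := by
    have : (0 : ℝ) ≤ P (m + 2) := Nat.cast_nonneg _
    have h5 : (5 : ℝ) ≤ P (m + 2) := by exact_mod_cast P_ge_five _
    linarith
  set β := Real.logb 2 w with hβ
  have hw : (2 : ℝ) ^ β = w := Real.rpow_logb (by norm_num) (by norm_num) hpos
  have h3 : (P m : ℝ) ≤ β := by
    rw [hβ, Real.le_logb_iff_rpow_le (by norm_num) hpos, Real.rpow_natCast]
    refine le_trans ?_ h1
    exact_mod_cast (P_add_two_gt m).le
  have h4 : β < P (m + 1) + 1 := by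
    rw [hβ, Real.logb_lt_iff_lt_rpow (by norm_num) hpos]
    have e : (2 : ℝ) ^ ((P (m + 1) : ℝ) + 1) = ((2 ^ (P (m + 1) + 1) : ℕ) : ℝ) := by
      rw [Real.rpow_add (by norm_num), Real.rpow_natCast, Real.rpow_one]
      push_cast
      ring
    rw [e]
    refine h2.trans_le ?_
    have h5 := P_add_two_le (m + 1)
    have h6 : 2 ^ 5 ≤ 2 ^ P (m + 1) := Nat.pow_le_pow_right (by norm_num) (P_ge_five (m + 1))
    have h7 : P (m + 3) ≤ 2 ^ (P (m + 1) + 1) := by
      rw [pow_succ]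
      show P (m + 1 + 2) ≤ _
      omega
    exact_mod_cast h7
  have hfin : ∀ b, pat (m + 1) b = !pat (nu w) b := by
    intro b
    rw [hnu, show m + 3 = m + 1 + 2 from rfl, pat_add_two, Bool.not_not]
  rcases lt_or_ge β (P (m + 1)) with h5 | h5
  · have h6 : nu β = m + 1 := nu_eq_succ h5 h3
    unfold G
    rw [h6, hfin]
  · have h6 : nu β = m + 2 := by
      apply nu_eq_succ _ h5
      refine h4.trans_le ?_
      have := P_succ_ge (m + 1)
      have h7 : P (m + 1) + 1 ≤ P (m + 1 + 1) := by omega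
      exact_mod_cast h7
    have h7 : th β = decide ((m + 1) % 2 = 1) := th_near (by linarith) h4
    unfold G
    rw [h6, show m + 2 = m + 1 + 1 from rfl, pat_succ h7, hfin]

/-! ### Sums of a fast growing sequence -/

lemma sum_range_le {w : ℕ → ℝ} (h0 : ∀ i, 0 ≤ w i) (hd : ∀ i j, i < j → 2 * w i ≤ w j) (n : ℕ) :
    ∑ l ∈ Finset.range (n + 1), w l ≤ 2 * w n := by
  induction n with
  | zero =>
    rw [Finset.sum_range_one]
    linarith [h0 0]
  | succ n ih =>
    rw [Finset.sum_range_succ]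
    have := hd n (n + 1) (Nat.lt_succ_self n)
    linarith

/-- `w i` together with the smaller terms of `J` -/
lemma sum_bounds {w : ℕ → ℝ} (h0 : ∀ i, 0 ≤ w i) (hd : ∀ i j, i < j → 2 * w i ≤ w j) {i : ℕ}
    {J : Finset ℕ} (hJ : J.Nonempty) (hi : ∀ j ∈ J, i < j) :
    ∃ l m, l < m ∧ m ∈ J ∧ w m ≤ ∑ j ∈ J, w j ∧ w i + ∑ j ∈ J, w j ≤ w m + 2 * w l := by
  classical
  set m := J.max' hJ with hm
  have hmJ : m ∈ J := J.max'_mem hJ
  have him : i < m := hi m hmJ
  refine ⟨m - 1, m, by omega, hmJ, ?_, ?_⟩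
  · exact Finset.single_le_sum (fun j _ => h0 j) hmJ
  · have h1 : w m + ∑ j ∈ J.erase m, w j = ∑ j ∈ J, w j := Finset.add_sum_erase J w hmJ
    have h2 : i ∉ J.erase m := by
      intro h
      exact lt_irrefl _ (hi i (Finset.mem_of_mem_erase h))
    have h3 : w i + ∑ j ∈ J.erase m, w j = ∑ j ∈ insert i (J.erase m), w j :=
      (Finset.sum_insert h2).symm
    have h4 : insert i (J.erase m) ⊆ Finset.range (m - 1 + 1) := by
      intro j hj
      rw [Finset.mem_insert] at hj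
      rw [Finset.mem_range]
      rcases hj with rfl | hj
      · omega
      · have h5 := J.le_max' j (Finset.mem_of_mem_erase hj)
        have h6 := Finset.ne_of_mem_erase hj
        omega
    have h5 := Finset.sum_le_sum_of_subset_of_nonneg h4 (fun j _ _ => h0 j)
    have h6 := sum_range_le h0 hd (m - 1)
    linarith

/-- some finite sum is close to a multiple of `4` -/
lemma approx (w : ℕ → ℝ) (N : ℕ) {ε : ℝ} (hε : 0 < ε) :
    ∃ J : Finset ℕ, J.Nonempty ∧ (∀ j ∈ J, N < j) ∧ ∃ k : ℤ, ∃ δ : ℝ, |δ| < ε ∧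
      ∑ j ∈ J, w j = 4 * k + δ := by
  obtain ⟨K, hK⟩ := exists_nat_gt (4 / ε)
  have hKpos : (0 : ℝ) < K := lt_trans (by positivity) hK
  have hK0 : 0 < K := by exact_mod_cast hKpos
  set S : ℕ → ℝ := fun n => (∑ j ∈ Finset.Ioc N (N + n), w j) / 4 with hS
  set f : ℕ → Fin K := fun n => ⟨⌊(K : ℝ) * Int.fract (S n)⌋₊, by
    rw [Nat.floor_lt (mul_nonneg hKpos.le (Int.fract_nonneg _))]
    calc (K : ℝ) * Int.fract (S n) < K * 1 :=
      mul_lt_mul_of_pos_left (Int.fract_lt_one _) hKpos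
      _ = K := mul_one _⟩ with hf
  obtain ⟨a, b, hab, hfab⟩ : ∃ a b, a < b ∧ f a = f b := by
    obtain ⟨a, b, hab, hfab⟩ := Finite.exists_ne_map_eq_of_infinite f
    rcases lt_or_gt_of_ne hab with h | h
    · exact ⟨a, b, h, hfab⟩
    · exact ⟨b, a, h, hfab.symm⟩
  have h1 : ⌊(K : ℝ) * Int.fract (S a)⌋₊ = ⌊(K : ℝ) * Int.fract (S b)⌋₊ := congrArg Fin.val hfab
  have ha0 : 0 ≤ (K : ℝ) * Int.fract (S a) := mul_nonneg hKpos.le (Int.fract_nonneg _)
  have hb0 : 0 ≤ (K : ℝ) * Int.fract (S b) := mul_nonneg hKpos.le (Int.fract_nonneg _)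
  have h2 := Nat.floor_le ha0
  have h3 := Nat.lt_floor_add_one ((K : ℝ) * Int.fract (S a))
  have h4 := Nat.floor_le hb0
  have h5 := Nat.lt_floor_add_one ((K : ℝ) * Int.fract (S b))
  rw [h1] at h2 h3
  have h6 : |(K : ℝ) * (Int.fract (S b) - Int.fract (S a))| < 1 := by
    rw [abs_lt, mul_sub]
    constructor <;> linarith
  rw [abs_mul, abs_of_pos hKpos] at h6
  refine ⟨Finset.Ioc (N + a) (N + b), ?_, ?_, ⌊S b⌋ - ⌊S a⌋,
    4 * (Int.fract (S b) - Int.fract (S a)), ?_, ?_⟩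
  · rw [Finset.nonempty_Ioc]; omega
  · intro j hj
    rw [Finset.mem_Ioc] at hj
    omega
  · rw [abs_mul, abs_of_pos (by norm_num : (0 : ℝ) < 4)]
    have h7 : 4 < ε * K := by
      rw [div_lt_iff₀ hε] at hK
      linarith
    have h8 : (0 : ℝ) ≤ |Int.fract (S b) - Int.fract (S a)| := abs_nonneg _
    nlinarith
  · have h7 : ∑ j ∈ Finset.Ioc (N + a) (N + b), w j = 4 * S b - 4 * S a := by
      have h8 : ∑ j ∈ Finset.Ioc N (N + a), w j + ∑ j ∈ Finset.Ioc (N + a) (N + b), w j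
          = ∑ j ∈ Finset.Ioc N (N + b), w j := by
        rw [← Finset.sum_union]
        · congr 1
          ext j
          simp only [Finset.mem_union, Finset.mem_Ioc]
          omega
        · rw [Finset.disjoint_left]
          intro j hj hj2
          rw [Finset.mem_Ioc] at hj hj2
          omega
      simp only [hS]
      linarith
    rw [h7]
    push_cast
    rw [Int.fract, Int.fract]
    ring

/-! ### The two cases -/

/-- the hypothesis on a fast growing sequence `w` -/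
structure Hyp (C : Bool) (w : ℕ → ℝ) : Prop where
  big : ∀ i, 33 ≤ w i
  dbl : ∀ i j, i < j → 2 * w i ≤ w j
  mod : ∀ i j, nu (w i) % 4 = nu (w j) % 4
  col0 : ∀ i, G (Real.logb 2 (w i)) = C
  col : ∀ i (J : Finset ℕ), J.Nonempty → (∀ j ∈ J, i < j) →
    G (Real.logb 2 (w i) + ∑ j ∈ J, w j) = C

lemma Hyp.nonneg {C : Bool} {w : ℕ → ℝ} (h : Hyp C w) (i : ℕ) : 0 ≤ w i := by
  have := h.big i
  linarith

lemma P_two : P 2 = 33 := by decide

lemma Hyp.exists_nu {C : Bool} {w : ℕ → ℝ} (h : Hyp C w) (i : ℕ) : ∃ m, nu (w i) = m + 3 := by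
  have h1 : ¬ nu (w i) ≤ 2 := by
    intro h2
    have h3 := lt_P_nu (w i)
    have h4 : P (nu (w i)) ≤ P 2 := P_strictMono.monotone h2
    rw [P_two] at h4
    have h5 : (P (nu (w i)) : ℝ) ≤ 33 := by exact_mod_cast h4
    linarith [h.big i]
  exact ⟨nu (w i) - 3, by omega⟩

lemma Hyp.G_eq {C : Bool} {w : ℕ → ℝ} (h : Hyp C w) (i : ℕ) :
    (!(pat (nu (w i)) (th (Real.logb 2 (w i))))) = C := by
  obtain ⟨m, hm⟩ := h.exists_nu i
  have h1 : (P (m + 2) : ℝ) ≤ w i := P_le_of_lt_nu (by omega)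
  have h2 : w i < P (m + 3) := by
    rw [← hm]
    exact lt_P_nu _
  rw [← G_log h1 h2]
  exact h.col0 i

lemma logb_le {x : ℝ} (hx : 33 ≤ x) : Real.logb 2 x ≤ x := by
  rw [Real.logb_le_iff_le_rpow (by norm_num) (by linarith)]
  have h1 : x ≤ ⌊x⌋₊ + 1 := (Nat.lt_floor_add_one x).le
  have h2 : (⌊x⌋₊ + 1 : ℕ) ≤ 2 ^ ⌊x⌋₊ := Nat.lt_two_pow_self
  have h3 : ((⌊x⌋₊ + 1 : ℕ) : ℝ) ≤ (2 : ℝ) ^ (⌊x⌋₊ : ℝ) := by
    rw [Real.rpow_natCast]
    exact_mod_cast h2
  push_cast at h3
  refine (h1.trans h3).trans ?_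
  exact Real.rpow_le_rpow_of_exponent_le (by norm_num) (Nat.floor_le (by linarith))

lemma logb_pos' {x : ℝ} (hx : 33 ≤ x) : 0 < Real.logb 2 x :=
  Real.logb_pos (by norm_num) (by linarith)

/-- First case: the distances to the next tower value are large. -/
lemma caseA {C : Bool} {w : ℕ → ℝ} (h : Hyp C w)
    (hs : ∀ i j, i < j → 2 * w i < P (nu (w j)) - w j) : False := by
  have key : ∀ i (J : Finset ℕ), J.Nonempty → (∀ j ∈ J, i < j) →
      th (Real.logb 2 (w i) + ∑ j ∈ J, w j) ≠ th (Real.logb 2 (w i)) := by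
    intro i J hJ hi heq
    obtain ⟨l, m, hlm, hm, h1, h2⟩ := sum_bounds h.nonneg h.dbl hJ hi
    have h3 := logb_le (h.big i)
    have h4 := logb_pos' (h.big i)
    have h5 := hs l m hlm
    have h6 : nu (Real.logb 2 (w i) + ∑ j ∈ J, w j) = nu (w m) := by
      apply nu_eq
      · linarith
      · intro m' hm'
        have := P_le_of_lt_nu hm'
        linarith
    have h7 := h.col i J hJ hi
    unfold G at h7
    rw [h6, heq, pat_congr (h.mod m i)] at h7
    have h8 := h.G_eq i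
    rw [h7] at h8
    cases C <;> simp at h8
  have hint : ∀ i, Real.logb 2 (w i) = 2 * ⌊Real.logb 2 (w i) / 2⌋ := by
    intro i
    by_contra hne
    set β := Real.logb 2 (w i) with hβ
    have h1 : (⌊β / 2⌋ : ℝ) ≤ β / 2 := Int.floor_le _
    have h2 : β / 2 < ⌊β / 2⌋ + 1 := Int.lt_floor_add_one _
    have h3 : 0 < β - 2 * ⌊β / 2⌋ := by
      rcases lt_or_eq_of_le (show 0 ≤ β - 2 * ⌊β / 2⌋ by linarith) with h4 | h4
      · exact h4
      · exact absurd (by linarith) hne
    have h4 : 0 < 2 - (β - 2 * ⌊β / 2⌋) := by linarith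
    obtain ⟨J, hJ, hi, k, δ, hδ, hsum⟩ := approx w i (lt_min h3 h4)
    apply key i J hJ hi
    rw [hsum]
    rw [lt_min_iff, abs_lt, abs_lt] at hδ
    apply th_add <;> linarith [hδ.1.1, hδ.1.2, hδ.2.1, hδ.2.2]
  -- now `w 1` is a multiple of `4`
  have h1 := hint 1
  set q := ⌊Real.logb 2 (w 1) / 2⌋ with hq
  have hw1 : (2 : ℝ) ^ (Real.logb 2 (w 1)) = w 1 :=
    Real.rpow_logb (by norm_num) (by norm_num) (by linarith [h.big 1])
  have hqpos : 0 < q := by
    have h2 := logb_pos' (h.big 1)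
    rw [h1] at h2
    have h3 : (0 : ℝ) < q := by linarith
    exact_mod_cast h3
  obtain ⟨n, hn⟩ := Int.eq_succ_of_zero_lt hqpos
  have hw2 : w 1 = 4 * ((4 ^ n : ℤ) : ℝ) + 0 := by
    rw [← hw1, h1, hn]
    have e : (2 : ℝ) * (((n : ℤ) + 1 : ℤ) : ℝ) = ((2 * (n + 1) : ℕ) : ℝ) := by
      push_cast
      ring
    rw [e, Real.rpow_natCast, pow_mul, pow_succ]
    push_cast
    norm_num
    ring
  apply key 0 {1} (Finset.singleton_nonempty 1) (by simp)
  rw [Finset.sum_singleton, hw2]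
  have h3 : (⌊Real.logb 2 (w 0) / 2⌋ : ℝ) ≤ Real.logb 2 (w 0) / 2 := Int.floor_le _
  have h4 : Real.logb 2 (w 0) / 2 < ⌊Real.logb 2 (w 0) / 2⌋ + 1 := Int.lt_floor_add_one _
  apply th_add <;> linarith

/-- Second case: the distances to the next tower value are bounded. -/
lemma caseB {C : Bool} {w : ℕ → ℝ} (h : Hyp C w) {s : ℝ}
    (hs : ∀ j, P (nu (w j)) - w j ≤ s) (hs0 : s < Real.logb 2 (w 0)) : False := by
  obtain ⟨m, hm⟩ := h.exists_nu 0
  set β := Real.logb 2 (w 0) with hβ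
  have hwpos : (0 : ℝ) < w 0 := by linarith [h.big 0]
  have h2 : w 0 < P (m + 3) := by
    rw [← hm]
    exact lt_P_nu _
  have h4 : β < P (m + 1) + 1 := by
    rw [hβ, Real.logb_lt_iff_lt_rpow (by norm_num) hwpos]
    have e : (2 : ℝ) ^ ((P (m + 1) : ℝ) + 1) = ((2 ^ (P (m + 1) + 1) : ℕ) : ℝ) := by
      rw [Real.rpow_add (by norm_num), Real.rpow_natCast, Real.rpow_one]
      push_cast
      ring
    rw [e]
    refine h2.trans_le ?_
    have h5 := P_add_two_le (m + 1)
    have h6 : 2 ^ 5 ≤ 2 ^ P (m + 1) := Nat.pow_le_pow_right (by norm_num) (P_ge_five (m + 1))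
    have h7 : P (m + 3) ≤ 2 ^ (P (m + 1) + 1) := by
      rw [pow_succ]
      show P (m + 1 + 2) ≤ _
      omega
    exact_mod_cast h7
  have h5 : (P (m + 1) : ℝ) - 1 < β := by
    rw [hβ, Real.lt_logb_iff_rpow_lt (by norm_num) hwpos]
    obtain ⟨q, hq⟩ : ∃ q, P (m + 1) = q + 1 := ⟨P (m + 1) - 1, by
      have := P_ge_five (m + 1)
      omega⟩
    have e : (2 : ℝ) ^ ((P (m + 1) : ℝ) - 1) = ((2 ^ q : ℕ) : ℝ) := by
      rw [hq]
      push_cast
      rw [add_sub_cancel_right, Real.rpow_natCast]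
    rw [e]
    have h6 : ((2 * 2 ^ q : ℕ) : ℝ) < P (m + 3) := by
      have := P_add_two_gt (m + 1)
      rw [hq, pow_succ, mul_comm] at this
      exact_mod_cast this
    have h7 : q + 2 ≤ 2 ^ q := by
      have hq4 : 4 ≤ q := by
        have := P_ge_five (m + 1)
        omega
      obtain ⟨d, rfl⟩ := Nat.exists_eq_add_of_le hq4
      have h8 : d + 1 ≤ 2 ^ d := Nat.lt_two_pow_self
      rw [pow_add]
      omega
    have h8 : ((q + 2 : ℕ) : ℝ) ≤ ((2 ^ q : ℕ) : ℝ) := by exact_mod_cast h7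
    have h9 := hs 0
    rw [hm] at h9
    rw [hq] at h4
    push_cast at h4 h6 h8 ⊢
    linarith
  have hth : th β = decide ((m + 1) % 2 = 1) := th_near h5.le h4
  -- floor of `β / 2`
  have h6 := P_mod_four (m + 1)
  obtain ⟨q, hq⟩ : ∃ q : ℕ, P (m + 1) = 2 * q + 1 :=
    ⟨P (m + 1) / 2, by split_ifs at h6 <;> omega⟩
  have hqR : (P (m + 1) : ℝ) = 2 * (q : ℝ) + 1 := by exact_mod_cast hq
  have hfl : ⌊β / 2⌋ = (q : ℤ) := by
    rw [Int.floor_eq_iff, Int.cast_natCast]
    constructor <;> linarith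
  have hflR : (⌊β / 2⌋ : ℝ) = q := by rw [hfl, Int.cast_natCast]
  obtain ⟨J, hJ, hi, k, δ, hδ, hsum⟩ := approx w 0 (ε := min (β - 2 * q) (2 * q + 2 - β))
    (lt_min (by linarith) (by linarith))
  rw [lt_min_iff, abs_lt, abs_lt] at hδ
  have hth2 : th (β + ∑ j ∈ J, w j) = th β := by
    rw [hsum]
    apply th_add <;> rw [hflR] <;> linarith [hδ.1.1, hδ.1.2, hδ.2.1, hδ.2.2]
  obtain ⟨l, n, hln, hn, h7, h8⟩ := sum_bounds h.nonneg h.dbl hJ hi
  have h9 := logb_le (h.big 0)
  have h10 := hs n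
  have h11 := h.dbl l n hln
  obtain ⟨m', hm'⟩ := h.exists_nu n
  have hnu : nu (β + ∑ j ∈ J, w j) = nu (w n) + 1 := by
    apply nu_eq_succ
    · have h12 := lt_P_nu (w n)
      have h13 : 2 * P (nu (w n)) ≤ P (nu (w n) + 1) := by
        rw [hm']
        exact P_double (m' + 2)
      have h14 : (2 : ℝ) * P (nu (w n)) ≤ P (nu (w n) + 1) := by exact_mod_cast h13
      linarith
    · linarith
  have h15 := h.col 0 J hJ hi
  unfold G at h15
  rw [hnu, hth2, pat_congr (show (nu (w n) + 1) % 4 = (nu (w 0) + 1) % 4 by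
    have := h.mod n 0
    omega), pat_succ (by rw [hth, hm]; congr 1; simp only [eq_iff_iff]; omega)] at h15
  have h16 := h.G_eq 0
  rw [h15] at h16
  cases C <;> simp at h16

/-! ### Passing to subsequences -/

/-- the hypothesis on an arbitrary sequence `w` -/
structure Hyp0 (C : Bool) (w : ℕ → ℝ) : Prop where
  lim : Tendsto w atTop atTop
  col : ∀ i (J : Finset ℕ), (∀ j ∈ J, i < j) →
    G (Real.logb 2 (w i) + ∑ j ∈ J, w j) = C

lemma Hyp0.hyp {C : Bool} {w : ℕ → ℝ} (h : Hyp0 C w) {a : ℕ} {φ : ℕ → ℕ}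
    (h1 : ∀ i j, i < j → φ i < φ j) (h2 : ∀ i j, i < j → 2 * w (φ i) ≤ w (φ j))
    (h3 : ∀ i, 33 ≤ w (φ i)) (h4 : ∀ i, nu (w (φ i)) % 4 = a) :
    Hyp C (fun i => w (φ i)) where
  big := h3
  dbl := h2
  mod := fun i j => by rw [h4, h4]
  col0 := fun i => by simpa using h.col (φ i) ∅ (by simp)
  col := fun i J _ hi => by
    classical
    have hinj : Function.Injective φ := (show StrictMono φ from fun i j hij => h1 i j hij).injective
    have := h.col (φ i) (J.image φ) (by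
      intro j hj
      rw [Finset.mem_image] at hj
      obtain ⟨j', hj', rfl⟩ := hj
      exact h1 i j' (hi j' hj'))
    rwa [Finset.sum_image (fun x _ y _ hxy => hinj hxy)] at this

lemma no_hyp0 {C : Bool} {w : ℕ → ℝ} (h : Hyp0 C w) : False := by
  classical
  -- the residue of `nu (w j)` modulo `4`
  obtain ⟨a, ha⟩ : ∃ a : ℕ, ∃ᶠ j in atTop, nu (w j) % 4 = a := by
    by_contra hcon
    push Not at hcon
    have h1 : ∀ᶠ j in (atTop : Filter ℕ), ∀ a ∈ Finset.range 4, ¬ nu (w j) % 4 = a := by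
      rw [Filter.eventually_all_finset]
      intro a _
      exact hcon a
    obtain ⟨j, hj⟩ := h1.exists
    exact hj (nu (w j) % 4) (Finset.mem_range.mpr (Nat.mod_lt _ (by norm_num))) rfl
  have hlarge : ∀ M : ℝ, ∀ᶠ j in atTop, M ≤ w j := fun M => h.lim.eventually_ge_atTop M
  by_cases hA : ∀ M : ℝ, ∃ᶠ j in atTop, nu (w j) % 4 = a ∧ M < P (nu (w j)) - w j
  · obtain ⟨φ, hφ1, hφ2⟩ := exists_seq_of_forall_finset_exists
      (fun j => nu (w j) % 4 = a ∧ 33 ≤ w j)
      (fun i j => i < j ∧ 2 * w i ≤ w j ∧ 2 * w i < P (nu (w j)) - w j) (by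
        intro F _
        obtain ⟨M, hM⟩ : ∃ M : ℝ, ∀ i ∈ F, 2 * w i ≤ M := by
          obtain ⟨M, hM⟩ := (F.finite_toSet.image (fun i => 2 * w i)).bddAbove
          exact ⟨M, fun i hi => hM ⟨i, hi, rfl⟩⟩
        have h1 : ∀ᶠ j in atTop, 33 ≤ w j ∧ ∀ i ∈ F, (i < j ∧ 2 * w i ≤ w j) := by
          refine (hlarge 33).and ?_
          rw [Filter.eventually_all_finset]
          intro i _
          exact (eventually_gt_atTop i).and (hlarge (2 * w i))
        obtain ⟨j, ⟨hj1, hj2⟩, hj3, hj4⟩ := ((hA M).and_eventually h1).exists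
        exact ⟨j, ⟨hj1, hj3⟩, fun i hi =>
          ⟨(hj4 i hi).1, (hj4 i hi).2, lt_of_le_of_lt (hM i hi) hj2⟩⟩)
    have hH : Hyp C (fun i => w (φ i)) := h.hyp (a := a) (fun i j hij => (hφ2 i j hij).1)
      (fun i j hij => (hφ2 i j hij).2.1) (fun i => (hφ1 i).2) (fun i => (hφ1 i).1)
    exact caseA hH (fun i j hij => (hφ2 i j hij).2.2)
  · push Not at hA
    obtain ⟨M, hM⟩ := hA
    have hlog : ∀ᶠ j in atTop, M < Real.logb 2 (w j) := by
      have := (Real.tendsto_logb_atTop (by norm_num : (1 : ℝ) < 2)).comp h.lim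
      exact this.eventually_gt_atTop M
    obtain ⟨φ, hφ1, hφ2⟩ := exists_seq_of_forall_finset_exists
      (fun j => (nu (w j) % 4 = a ∧ P (nu (w j)) - w j ≤ M) ∧ 33 ≤ w j ∧ M < Real.logb 2 (w j))
      (fun i j => i < j ∧ 2 * w i ≤ w j) (by
        intro F _
        have h1 : ∀ᶠ j in atTop, (33 ≤ w j ∧ M < Real.logb 2 (w j)) ∧
            ∀ i ∈ F, (i < j ∧ 2 * w i ≤ w j) := by
          refine ((hlarge 33).and hlog).and ?_
          rw [Filter.eventually_all_finset]
          intro i _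
          exact (eventually_gt_atTop i).and (hlarge (2 * w i))
        have hM' : ∀ᶠ j in atTop, nu (w j) % 4 = a → P (nu (w j)) - w j ≤ M := by
          filter_upwards [hM] with j hj hja
          exact hj hja
        obtain ⟨j, ⟨hj1, hj2⟩, hj3, hj4⟩ := ((ha.and_eventually hM').and_eventually h1).exists
        exact ⟨j, ⟨⟨hj1, hj2 hj1⟩, hj3.1, hj3.2⟩, hj4⟩)
    have hH : Hyp C (fun i => w (φ i)) := h.hyp (a := a) (fun i j hij => (hφ2 i j hij).1)
      (fun i j hij => (hφ2 i j hij).2) (fun i => (hφ1 i).2.1) (fun i => (hφ1 i).1.1)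
    exact caseB hH (s := M) (fun j => (hφ1 j).1.2) (hφ1 0).2.2

/-! ### Exponential IP sets of type I -/

/-- `FE^I_n(X)` for the infinite set `X = {x 0 < x 1 < x 2 < ...}`. -/
def FEI (x : ℕ → ℕ) : ℕ → Set ℕ
  | 0 => {x 0}
  | n + 1 => {z | ∃ y ∈ FEI x n, z = y ^ x (n + 1)} ∪ FEI x n ∪ {x (n + 1)}

/-- `C` is an exponential IP set of type I: it contains `FE^I(X)` for some infinite set `X` of
natural numbers (given by its increasing enumeration). -/
def IsExpIPI (C : Set ℕ) : Prop :=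
  ∃ x : ℕ → ℕ, StrictMono x ∧ ∀ n, FEI x n ⊆ C

lemma mem_FEI_self (x : ℕ → ℕ) (n : ℕ) : x n ∈ FEI x n := by
  cases n with
  | zero => exact Set.mem_singleton _
  | succ n => exact Or.inr (Set.mem_singleton _)

lemma mem_FEI (x : ℕ → ℕ) (i n : ℕ) : ∀ J : Finset ℕ, (∀ j ∈ J, i < j) → (∀ j ∈ J, j ≤ i + n) →
    x i ^ (∏ j ∈ J, x j) ∈ FEI x (i + n) := by
  classical
  induction n with
  | zero =>
    intro J h1 h2
    have hJ : J = ∅ := by
      rw [Finset.eq_empty_iff_forall_notMem]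
      intro j hj
      have := h1 j hj
      have := h2 j hj
      omega
    rw [hJ, Finset.prod_empty, pow_one]
    exact mem_FEI_self x i
  | succ n ih =>
    intro J h1 h2
    by_cases hn : i + n + 1 ∈ J
    · have h3 := ih (J.erase (i + n + 1)) (fun j hj => h1 j (Finset.mem_of_mem_erase hj))
        (fun j hj => by
          have h4 := h2 j (Finset.mem_of_mem_erase hj)
          have h5 := Finset.ne_of_mem_erase hj
          omega)
      refine Or.inl (Or.inl ⟨_, h3, ?_⟩)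
      rw [← pow_mul]
      show _ = x i ^ ((∏ j ∈ J.erase (i + n + 1), x j) * x (i + n + 1))
      rw [Finset.prod_erase_mul J x hn]
    · have h3 := ih J h1 (fun j hj => by
        have h4 := h2 j hj
        have h5 : j ≠ i + n + 1 := fun h => hn (h ▸ hj)
        omega)
      exact Or.inl (Or.inr h3)

lemma col_eq {x : ℕ} (hx : 2 ≤ x) {ι : Type*} (J : Finset ι) (y : ι → ℕ) (hy : ∀ j ∈ J, 2 ≤ y j) :
    col (x ^ (∏ j ∈ J, y j)) =
      G (Real.logb 2 (Real.logb 2 x) + ∑ j ∈ J, Real.logb 2 (y j)) := by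
  unfold col
  congr 1
  have h1 : Real.logb 2 x ≠ 0 := by
    have : 0 < Real.logb 2 x := Real.logb_pos (by norm_num) (by exact_mod_cast hx)
    exact this.ne'
  have h2 : (∏ j ∈ J, (y j : ℝ)) ≠ 0 := by
    rw [Finset.prod_ne_zero_iff]
    intro j hj
    have := hy j hj
    have : (y j : ℝ) ≠ 0 := by
      have : y j ≠ 0 := by omega
      exact_mod_cast this
    exact this
  rw [Nat.cast_pow, Real.logb_pow, Nat.cast_prod, Real.logb_mul h2 h1, Real.logb_prod]
  · ring
  · intro j hj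
    have := hy j hj
    have : y j ≠ 0 := by omega
    exact_mod_cast this

/-- No set all of whose large elements have the same colour is an exponential IP set of
type I. -/
theorem not_isExpIPI {A : Set ℕ} {B : ℕ} {C : Bool} (hA : ∀ n ∈ A, B ≤ n → col n = C) :
    ¬ IsExpIPI A := by
  rintro ⟨x, hx, hxA⟩
  set N := B + 2 with hN
  set w : ℕ → ℝ := fun i => Real.logb 2 (x (i + N)) with hw
  have hx2 : ∀ i, N ≤ x (i + N) := fun i => (Nat.le_add_left N i).trans hx.le_apply
  refine no_hyp0 (C := C) (w := w) ⟨?_, ?_⟩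
  · have h1 : Tendsto (fun i => ((x (i + N) : ℕ) : ℝ)) atTop atTop := by
      apply tendsto_natCast_atTop_atTop.comp
      exact hx.tendsto_atTop.comp (tendsto_add_atTop_nat N)
    exact (Real.tendsto_logb_atTop (by norm_num : (1 : ℝ) < 2)).comp h1
  · intro i J hJ
    have h1 := col_eq (x := x (i + N)) (by have := hx2 i; omega) J (fun j => x (j + N))
      (fun j _ => by have := hx2 j; omega)
    rw [← h1]
    apply hA
    · obtain ⟨n, hn⟩ : ∃ n, ∀ j ∈ J, j ≤ n := by
        obtain ⟨n, hn⟩ := J.finite_toSet.bddAbove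
        exact ⟨n, fun j hj => hn hj⟩
      have h2 := mem_FEI x (i + N) n (J.map (addRightEmbedding N)) (by
        intro j hj
        rw [Finset.mem_map] at hj
        obtain ⟨j', hj', rfl⟩ := hj
        have := hJ j' hj'
        simp only [addRightEmbedding_apply]
        omega) (by
        intro j hj
        rw [Finset.mem_map] at hj
        obtain ⟨j', hj', rfl⟩ := hj
        have := hn j' hj'
        simp only [addRightEmbedding_apply]
        omega)
      rw [Finset.prod_map] at h2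
      exact hxA _ h2
    · have h3 : x (i + N) ^ 1 ≤ x (i + N) ^ (∏ j ∈ J, x (j + N)) := by
        apply Nat.pow_le_pow_right
        · have := hx2 i
          omega
        · apply Nat.pos_of_ne_zero
          rw [Finset.prod_ne_zero_iff]
          intro j _
          have := hx2 j
          omega
      rw [pow_one] at h3
      have := hx2 i
      omega

lemma not_isExpIPI_of_finite {A : Set ℕ} {B : ℕ} (hA : ∀ n ∈ A, n < B) : ¬ IsExpIPI A := by
  rintro ⟨x, hx, hxA⟩
  have h1 := hA _ (hxA B (mem_FEI_self x B))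
  have h2 : B ≤ x B := hx.le_apply
  omega

/-- For every `r ≥ 2` there is a partition of `ℕ` into `r` nonempty cells none of which is an
exponential IP set of type I. -/
theorem main (r : ℕ) (hr : 2 ≤ r) : ∃ c : ℕ → Fin r, Function.Surjective c ∧
    ∀ i : Fin r, ¬ IsExpIPI {n | c n = i} := by
  refine ⟨fun n => if h : n < r then ⟨n, h⟩ else (if col n then ⟨1, by omega⟩ else ⟨0, by omega⟩),
    ?_, ?_⟩
  · intro i
    refine ⟨i, ?_⟩
    show (if h : (i : ℕ) < r then (⟨i, h⟩ : Fin r) else _) = i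
    rw [dif_pos i.2]
  · intro i
    by_cases hi : (i : ℕ) = 1
    · refine not_isExpIPI (B := r) (C := true) ?_
      intro n hn hrn
      have hn' : (if h : n < r then (⟨n, h⟩ : Fin r) else
        (if col n then ⟨1, by omega⟩ else ⟨0, by omega⟩)) = i := hn
      rw [dif_neg (by omega)] at hn'
      by_contra hc
      rw [if_neg hc] at hn'
      rw [← hn'] at hi
      exact absurd hi (by norm_num)
    · by_cases hi0 : (i : ℕ) = 0
      · refine not_isExpIPI (B := r) (C := false) ?_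
        intro n hn hrn
        have hn' : (if h : n < r then (⟨n, h⟩ : Fin r) else
          (if col n then ⟨1, by omega⟩ else ⟨0, by omega⟩)) = i := hn
        rw [dif_neg (by omega)] at hn'
        by_contra hc
        rw [Bool.not_eq_false] at hc
        rw [if_pos hc] at hn'
        rw [← hn'] at hi
        exact hi rfl
      · refine not_isExpIPI_of_finite (B := r) ?_
        intro n hn
        by_contra hrn
        have hn' : (if h : n < r then (⟨n, h⟩ : Fin r) else
          (if col n then ⟨1, by omega⟩ else ⟨0, by omega⟩)) = i := hn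
        rw [dif_neg hrn] at hn'
        rw [← hn'] at hi hi0
        split_ifs at hi hi0
        · exact hi rfl
        · exact hi0 rfl

end Pool.Agent.V8H18.ExpIPOne
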